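import Pool.Agent.ZES.StmtsB

/-! Row PHI of squad ZES. -/

namespace Pool.Agent.ZES.H41

open scoped BigOperators InnerProductSpace

theorem nexp {V : Type} [NormedAddCommGroup V] [InnerProductSpace ℂ V] (ω lam : V) (a : ℝ) :
    ‖Complex.exp ((a : ℂ) * (inner ℂ ω lam - inner ℂ lam ω))‖ = 1 := by
  rw [Complex.norm_exp, Complex.re_ofReal_mul, ← inner_conj_symm lam ω, Complex.sub_re,
    Complex.conj_re, sub_self, mul_zero, Real.exp_zero]

theorem phi (hALN : AlnStmt) (hCPT : CptStmt) (hHDT : HdtStmt) (hTRN : TrnStmt)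
    (hPSI : PsiStmt) : PhiStmt := by
  intro V _ _ _ L χ hLAT W hAVW m' r hr lam f hf hfW hJ ht
  have hG := fun i => hTRN V L χ hLAT m' (f i) (hf i) lam
  choose G CG hGd hC0 hGz hGp hGg hGf using hG
  have hflam : ∀ i, f i lam = 0 := fun i => by
    have h := hfW i 0 W.zero_mem
    rwa [add_zero] at h
  obtain ⟨φ, Cφ, c, hφd, hφ0, hc0, hφz, hφp, hφg⟩ := hHDT V W L
    (fun ω => χ ω ^ m' * Complex.exp (Real.pi * m' * (inner ℂ ω lam - inner ℂ lam ω)))
    (Real.pi * m') (∑ i, CG i) r hr (by positivity) G hGd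
    (fun i w hw => (hGz i w).mpr (by rw [add_comm]; exact hfW i w hw))
    (fun i ω hω _ x => hGp i ω hω x)
    (fun i x => (hGg i x).trans (mul_le_mul_of_nonneg_right
      (Finset.single_le_sum (fun j _ => hC0 j) (Finset.mem_univ i)) (Real.exp_pos _).le))
    (fun v hv h => hJ v hv fun i => by rw [← hGf i (hflam i) v]; exact h i)
  obtain ⟨t, htt, htl⟩ := ht
  obtain ⟨ψ, Cψ, hψd, hCψ, hψ0, hψp, hψg⟩ := hPSI V L χ hLAT W t htt lam htl
  obtain ⟨R, hR0, hR⟩ := hCPT V L W hAVW.span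
  have hCφ : 0 ≤ Cφ := by
    have h := (norm_nonneg _).trans (hφg 0)
    by_contra hneg
    push Not at hneg
    have := mul_neg_of_neg_of_pos hneg
      (Real.exp_pos ((r : ℝ) * (Real.pi * m') / 2 * ‖(0 : V)‖ ^ 2 + c * ‖(0 : V)‖))
    linarith
  set n : ℕ := r * m' + 2 with hn
  have hnR : Real.pi * (n : ℝ) = (r : ℝ) * (Real.pi * m') + Real.pi * 2 := by
    rw [hn]; push_cast; ring
  -- growth of the product
  have hΦ : ∀ x, ‖φ x * ψ x‖ ≤ Cφ * Cψ * Real.exp (c * R) *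
      Real.exp (Real.pi * n / 2 * ‖x‖ ^ 2 - Real.pi * ‖Wᗮ.starProjection x‖ ^ 2
        + c * ‖Wᗮ.starProjection x‖) := by
    intro x
    obtain ⟨ω, hω, hωW, hωR⟩ := hR _ (Submodule.starProjection_apply_mem W x)
    obtain ⟨y, hy⟩ : ∃ y, y = x - ω := ⟨_, rfl⟩
    have hx : x = y + ω := by rw [hy]; abel
    have hχ : ‖χ ω‖ = 1 := by
      have h := congrArg norm (hLAT.sq ω hω)
      rw [norm_pow, norm_one] at h
      exact (pow_eq_one_iff_of_nonneg (norm_nonneg _) two_ne_zero).mp h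
    have hyC : Wᗮ.starProjection y = Wᗮ.starProjection x := by
      rw [hy, map_sub, (Submodule.starProjection_apply_eq_zero_iff Wᗮ (v := ω)).mpr
        (W.le_orthogonal_orthogonal hωW), sub_zero]
    have hyW : ‖W.starProjection y‖ ≤ R := by
      rw [hy, map_sub, Submodule.starProjection_eq_self_iff.mpr hωW]
      exact hωR
    have hPy := Submodule.norm_sq_eq_add_norm_sq_starProjection y W
    have hyn : ‖y‖ ≤ R + ‖Wᗮ.starProjection x‖ := by
      have h1 := Submodule.starProjection_add_starProjection_orthogonal (K := W) y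
      calc ‖y‖ = ‖W.starProjection y + Wᗮ.starProjection y‖ := by rw [h1]
        _ ≤ ‖W.starProjection y‖ + ‖Wᗮ.starProjection y‖ := norm_add_le _ _
        _ ≤ _ := by rw [hyC]; linarith
    have h1 : ‖φ x‖ = Real.exp ((r : ℝ) * (Real.pi * m') / 2 * (‖x‖ ^ 2 - ‖y‖ ^ 2)) * ‖φ y‖ := by
      have h := hφp ω hω hωW y
      rw [← hx] at h
      have he := nexp ω lam (Real.pi * m')
      push_cast at he
      rw [h, norm_mul, norm_mul, norm_pow, norm_mul, norm_pow, hχ, he, one_pow, one_mul, one_pow,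
        one_mul, (hALN V _ 0 ω ω y y).1, ← hx]
    have h2 : ‖ψ x‖ = Real.exp (Real.pi * 2 / 2 * (‖x‖ ^ 2 - ‖y‖ ^ 2)) * ‖ψ y‖ := by
      have h := hψp ω hω hωW y
      rw [← hx] at h
      have he := nexp ω lam (Real.pi * 2)
      push_cast at he
      rw [h, norm_mul, norm_mul, norm_mul, norm_pow, hχ, he, one_pow, one_mul,
        one_mul, (hALN V _ 0 ω ω y y).1, ← hx]
    rw [norm_mul, h1, h2]
    calc Real.exp ((r : ℝ) * (Real.pi * m') / 2 * (‖x‖ ^ 2 - ‖y‖ ^ 2)) * ‖φ y‖ *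
          (Real.exp (Real.pi * 2 / 2 * (‖x‖ ^ 2 - ‖y‖ ^ 2)) * ‖ψ y‖)
        ≤ Real.exp ((r : ℝ) * (Real.pi * m') / 2 * (‖x‖ ^ 2 - ‖y‖ ^ 2)) *
          (Cφ * Real.exp ((r : ℝ) * (Real.pi * m') / 2 * ‖y‖ ^ 2 + c * ‖y‖)) *
          (Real.exp (Real.pi * 2 / 2 * (‖x‖ ^ 2 - ‖y‖ ^ 2)) *
            (Cψ * Real.exp (Real.pi * ‖W.starProjection y‖ ^ 2))) := by
          gcongr
          · exact hφg y
          · exact hψg y
      _ = Cφ * Cψ * Real.exp ((r : ℝ) * (Real.pi * m') / 2 * (‖x‖ ^ 2 - ‖y‖ ^ 2)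
            + ((r : ℝ) * (Real.pi * m') / 2 * ‖y‖ ^ 2 + c * ‖y‖)
            + Real.pi * 2 / 2 * (‖x‖ ^ 2 - ‖y‖ ^ 2) + Real.pi * ‖W.starProjection y‖ ^ 2) := by
          rw [Real.exp_add _ (Real.pi * ‖W.starProjection y‖ ^ 2),
            Real.exp_add _ (Real.pi * 2 / 2 * (‖x‖ ^ 2 - ‖y‖ ^ 2)),
            Real.exp_add _ ((r : ℝ) * (Real.pi * m') / 2 * ‖y‖ ^ 2 + c * ‖y‖)]
          ring
      _ ≤ Cφ * Cψ * Real.exp (c * R + (Real.pi * n / 2 * ‖x‖ ^ 2
            - Real.pi * ‖Wᗮ.starProjection x‖ ^ 2 + c * ‖Wᗮ.starProjection x‖)) := by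
          refine mul_le_mul_of_nonneg_left (Real.exp_le_exp.mpr ?_) (mul_nonneg hCφ hCψ)
          have h3 : c * ‖y‖ ≤ c * (R + ‖Wᗮ.starProjection x‖) :=
            mul_le_mul_of_nonneg_left hyn hc0
          rw [hyC] at hPy
          rw [hnR, hPy]
          nlinarith [h3]
      _ = _ := by rw [Real.exp_add]; ring
  refine ⟨fun x => φ (x - lam) * ψ (x - lam) *
      Complex.exp ((Real.pi : ℂ) * (n : ℂ) * inner ℂ lam x),
    Cφ * Cψ * Real.exp (c * R) * Real.exp (Real.pi * n / 2 * ‖lam‖ ^ 2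
      + (c ^ 2 / 4 + 2 * ‖lam‖ ^ 2)), ?_, ?_, ?_, ?_, ?_⟩
  · have h1 : Differentiable ℂ fun x : V => x - lam := differentiable_id.sub_const lam
    refine ((hφd.comp h1).mul (hψd.comp h1)).mul ?_
    refine Differentiable.cexp (Differentiable.const_mul ?_ _)
    exact (innerSL ℂ lam).differentiable
  · show φ (lam - lam) * ψ (lam - lam) * _ ≠ 0
    rw [sub_self]
    exact mul_ne_zero (mul_ne_zero hφ0 hψ0) (Complex.exp_ne_zero _)
  · intro x hx hfx
    show φ (x - lam) * ψ (x - lam) * _ = 0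
    rw [hφz (x - lam) hx (fun i => (hGz i _).mpr (by rw [sub_add_cancel]; exact hfx i)), zero_mul,
      zero_mul]
  · intro ω hω hωW x
    have h1 : x + ω - lam = (x - lam) + ω := by abel
    show φ (x + ω - lam) * ψ (x + ω - lam) *
        Complex.exp ((Real.pi : ℂ) * (n : ℂ) * inner ℂ lam (x + ω)) = _ *
      (φ (x - lam) * ψ (x - lam) * Complex.exp ((Real.pi : ℂ) * (n : ℂ) * inner ℂ lam x))
    rw [h1, hφp ω hω hωW (x - lam), hψp ω hω hωW (x - lam)]
    have hexp : Complex.exp (Real.pi * m' * (inner ℂ ω lam - inner ℂ lam ω)) ^ r *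
        al (r * (Real.pi * m')) ω (x - lam) *
        Complex.exp (Real.pi * 2 * (inner ℂ ω lam - inner ℂ lam ω)) *
        al (Real.pi * 2) ω (x - lam) *
        Complex.exp ((Real.pi : ℂ) * (n : ℂ) * inner ℂ lam (x + ω)) =
        al (Real.pi * (n : ℝ)) ω x * Complex.exp ((Real.pi : ℂ) * (n : ℂ) * inner ℂ lam x) := by
      unfold al
      rw [← Complex.exp_nat_mul, ← Complex.exp_add, ← Complex.exp_add, ← Complex.exp_add,
        ← Complex.exp_add, ← Complex.exp_add]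
      congr 1
      rw [inner_sub_right, inner_add_right, hn]
      push_cast
      ring
    rw [hn] at hexp ⊢
    linear_combination (χ ω ^ (r * m' + 2) * (φ (x - lam) * ψ (x - lam))) * hexp
  · intro x
    show ‖φ (x - lam) * ψ (x - lam) * Complex.exp ((Real.pi : ℂ) * (n : ℂ) * inner ℂ lam x)‖ ≤ _
    have hre : ((Real.pi : ℂ) * (n : ℂ) * inner ℂ lam x).re
        = Real.pi * n * (inner ℂ lam x : ℂ).re := by
      have : (Real.pi : ℂ) * (n : ℂ) = ((Real.pi * n : ℝ) : ℂ) := by push_cast; ring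
      rw [this, Complex.re_ofReal_mul]
    have hns : ‖x - lam‖ ^ 2 = ‖x‖ ^ 2 - 2 * (inner ℂ lam x : ℂ).re + ‖lam‖ ^ 2 := by
      have h := @norm_sub_sq ℂ V _ _ _ x lam
      rw [h, ← inner_re_symm (𝕜 := ℂ) lam x]
      rfl
    rw [norm_mul, Complex.norm_exp, hre]
    have hb := hΦ (x - lam)
    set s' := ‖Wᗮ.starProjection (x - lam)‖ with hs'
    set s := ‖Wᗮ.starProjection x‖ with hs
    have hss : s ≤ s' + ‖lam‖ := by
      have h1 : Wᗮ.starProjection x = Wᗮ.starProjection (x - lam) + Wᗮ.starProjection lam := by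
        rw [← map_add, sub_add_cancel]
      rw [hs, h1]
      exact (norm_add_le _ _).trans (by
        have := Submodule.norm_starProjection_apply_le Wᗮ lam
        linarith)
    have hs0 : 0 ≤ s := norm_nonneg _
    have hs'0 : 0 ≤ s' := norm_nonneg _
    have hl0 : 0 ≤ ‖lam‖ := norm_nonneg _
    have hkey : -(Real.pi * s' ^ 2) + c * s' ≤ -s ^ 2 + (c ^ 2 / 4 + 2 * ‖lam‖ ^ 2) := by
      have h1 : s ^ 2 ≤ 2 * s' ^ 2 + 2 * ‖lam‖ ^ 2 := by nlinarith [sq_nonneg (s' - ‖lam‖)]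
      have h2 : 3 * s' ^ 2 ≤ Real.pi * s' ^ 2 :=
        mul_le_mul_of_nonneg_right Real.pi_gt_three.le (sq_nonneg _)
      nlinarith [sq_nonneg (s' - c / 2)]
    calc ‖φ (x - lam) * ψ (x - lam)‖ * Real.exp (Real.pi * n * (inner ℂ lam x : ℂ).re)
        ≤ (Cφ * Cψ * Real.exp (c * R) * Real.exp (Real.pi * n / 2 * ‖x - lam‖ ^ 2
            - Real.pi * s' ^ 2 + c * s')) * Real.exp (Real.pi * n * (inner ℂ lam x : ℂ).re) :=
          mul_le_mul_of_nonneg_right hb (Real.exp_pos _).le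
      _ = Cφ * Cψ * Real.exp (c * R) * Real.exp (Real.pi * n / 2 * ‖x - lam‖ ^ 2
            - Real.pi * s' ^ 2 + c * s' + Real.pi * n * (inner ℂ lam x : ℂ).re) := by
          rw [Real.exp_add _ (Real.pi * n * (inner ℂ lam x : ℂ).re)]; ring
      _ ≤ Cφ * Cψ * Real.exp (c * R) * Real.exp (Real.pi * n / 2 * ‖lam‖ ^ 2
            + (c ^ 2 / 4 + 2 * ‖lam‖ ^ 2) + (Real.pi * n / 2 * ‖x‖ ^ 2 - s ^ 2)) := by
          refine mul_le_mul_of_nonneg_left (Real.exp_le_exp.mpr ?_)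
            (mul_nonneg (mul_nonneg hCφ hCψ) (Real.exp_pos _).le)
          rw [hns]
          linarith
      _ = _ := by rw [Real.exp_add _ (Real.pi * n / 2 * ‖x‖ ^ 2 - s ^ 2)]; ring

end Pool.Agent.ZES.H41
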